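import Mathlib
import Pool.Agent.H770.GS.TF

/-! Numerical moments (S_TF16). -/

set_option autoImplicit false

open MeasureTheory Set intervalIntegral Filter Topology

namespace Pool.Agent.H703.TF16

/-- the Taylor polynomials of `e^(-y)` -/
noncomputable def T (n : ℕ) (y : ℝ) : ℝ := ∑ i ∈ Finset.range n, (-y) ^ i / (i.factorial : ℝ)

theorem T_zero (n : ℕ) : T (n + 1) 0 = 1 := by
  unfold T
  rw [Finset.sum_range_succ']
  simp

theorem T_deriv (n : ℕ) (y : ℝ) : HasDerivAt (T (n + 1)) (-T n y) y := by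
  unfold T
  have h : ∀ i ∈ Finset.range (n + 1), HasDerivAt (fun y : ℝ => (-y) ^ i / (i.factorial : ℝ))
      (((i : ℝ) * (-y) ^ (i - 1) * (-1)) / (i.factorial : ℝ)) y := by
    intro i _
    exact (((hasDerivAt_id y).neg).pow i).div_const _
  have h2 := HasDerivAt.fun_sum h
  have e : ∑ i ∈ Finset.range (n + 1), ((i : ℝ) * (-y) ^ (i - 1) * (-1)) / (i.factorial : ℝ) =
      -∑ i ∈ Finset.range n, (-y) ^ i / (i.factorial : ℝ) := by
    rw [Finset.sum_range_succ', ← Finset.sum_neg_distrib]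
    simp only [Nat.cast_zero, zero_mul, zero_div, add_zero]
    refine Finset.sum_congr rfl fun i _ => ?_
    rw [Nat.add_sub_cancel, Nat.factorial_succ]
    push_cast
    have h3 : ((i : ℝ) + 1) ≠ 0 := by positivity
    have h4 : (i.factorial : ℝ) ≠ 0 := by positivity
    field_simp
  rw [e] at h2
  exact h2

theorem alt (n : ℕ) : ∀ y : ℝ, 0 ≤ y → 0 ≤ (-1) ^ n * (Real.exp (-y) - T n y) := by
  induction n with
  | zero =>
    intro y _
    simp [T, Real.exp_nonneg]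
  | succ n ih =>
    intro y hy
    have hd : ∀ z : ℝ, HasDerivAt (fun z : ℝ => (-1 : ℝ) ^ (n + 1) * (Real.exp (-z) - T (n + 1) z))
        ((-1) ^ (n + 1) * (Real.exp (-z) * (-1) - -T n z)) z := by
      intro z
      exact (((hasDerivAt_id z).neg.exp).sub (T_deriv n z)).const_mul _
    have hmono : MonotoneOn (fun z : ℝ => (-1 : ℝ) ^ (n + 1) * (Real.exp (-z) - T (n + 1) z))
        (Ici 0) := by
      apply monotoneOn_of_deriv_nonneg (convex_Ici 0)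
      · exact fun z _ => (hd z).continuousAt.continuousWithinAt
      · exact fun z _ => (hd z).differentiableAt.differentiableWithinAt
      · intro z hz
        rw [interior_Ici, mem_Ioi] at hz
        rw [(hd z).deriv]
        have := ih z hz.le
        calc (0 : ℝ) ≤ (-1) ^ n * (Real.exp (-z) - T n z) := this
          _ = (-1) ^ (n + 1) * (Real.exp (-z) * (-1) - -T n z) := by rw [pow_succ]; ring
    have h1 := hmono (mem_Ici.2 le_rfl) (mem_Ici.2 hy) hy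
    simp only [neg_zero, Real.exp_zero, T_zero, sub_self, mul_zero] at h1
    exact h1

/-- `gg` -/
noncomputable def gg (τ : ℝ) : ℝ := Real.sin τ * (Real.sin τ - τ * Real.cos τ)

theorem gg_nonneg {τ : ℝ} (h0 : 0 ≤ τ) (h1 : τ ≤ Real.pi) : 0 ≤ gg τ := by
  unfold gg
  have hd : ∀ z : ℝ, HasDerivAt (fun z : ℝ => Real.sin z - z * Real.cos z)
      (Real.cos z - (1 * Real.cos z + z * (-Real.sin z))) z := fun z =>
    (Real.hasDerivAt_sin z).sub ((hasDerivAt_id z).mul (Real.hasDerivAt_cos z))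
  have hmono : MonotoneOn (fun z : ℝ => Real.sin z - z * Real.cos z) (Icc 0 Real.pi) := by
    apply monotoneOn_of_deriv_nonneg (convex_Icc 0 Real.pi)
    · exact fun z _ => (hd z).continuousAt.continuousWithinAt
    · exact fun z _ => (hd z).differentiableAt.differentiableWithinAt
    · intro z hz
      rw [interior_Icc, mem_Ioo] at hz
      rw [(hd z).deriv]
      have h2 := mul_nonneg hz.1.le (Real.sin_nonneg_of_nonneg_of_le_pi hz.1.le hz.2.le)
      linarith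
  have h2 := hmono ⟨le_rfl, Real.pi_pos.le⟩ ⟨h0, h1⟩ h0
  simp only [Real.sin_zero, zero_mul, sub_self] at h2
  exact mul_nonneg (Real.sin_nonneg_of_nonneg_of_le_pi h0 h1) h2

theorem gg_cont : Continuous gg := by
  unfold gg
  fun_prop

/-- cosine moments -/
noncomputable def C (n : ℕ) : ℝ := ∫ τ in (0:ℝ)..Real.pi, τ ^ n * Real.cos (2 * τ)

/-- sine moments -/
noncomputable def D (n : ℕ) : ℝ := ∫ τ in (0:ℝ)..Real.pi, τ ^ n * Real.sin (2 * τ)

theorem ii {f : ℝ → ℝ} (hf : Continuous f) : IntervalIntegrable f volume 0 Real.pi :=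
  hf.intervalIntegrable 0 Real.pi

theorem C_succ (n : ℕ) : C (n + 1) = -((n : ℝ) + 1) / 2 * D n := by
  have hd : ∀ x ∈ uIcc (0 : ℝ) Real.pi, HasDerivAt
      (fun τ : ℝ => τ ^ (n + 1) * Real.sin (2 * τ) / 2)
      (((n : ℝ) + 1) / 2 * (x ^ n * Real.sin (2 * x)) + x ^ (n + 1) * Real.cos (2 * x)) x := by
    intro x _
    have h1 : HasDerivAt (fun τ : ℝ => τ ^ (n + 1)) (((n + 1 : ℕ) : ℝ) * x ^ n) x := by
      have := hasDerivAt_pow (n + 1) x
      rwa [Nat.add_sub_cancel] at this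
    have h2 : HasDerivAt (fun τ : ℝ => Real.sin (2 * τ)) (Real.cos (2 * x) * (2 * 1)) x :=
      ((hasDerivAt_id x).const_mul 2).sin
    have h3 := (h1.mul h2).div_const 2
    refine h3.congr_deriv ?_
    push_cast
    ring
  have h1 := integral_eq_sub_of_hasDerivAt hd (ii (by fun_prop))
  rw [integral_add (ii (by fun_prop)) (ii (by fun_prop)), intervalIntegral.integral_const_mul] at h1
  have h2 : Real.sin (2 * Real.pi) = 0 := Real.sin_two_pi
  rw [h2] at h1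
  unfold C D
  simp only [mul_zero, Real.sin_zero] at h1
  linarith

theorem D_succ (n : ℕ) : D (n + 1) = ((n : ℝ) + 1) / 2 * C n - Real.pi ^ (n + 1) / 2 := by
  have hd : ∀ x ∈ uIcc (0 : ℝ) Real.pi, HasDerivAt
      (fun τ : ℝ => -(τ ^ (n + 1) * Real.cos (2 * τ) / 2))
      (-(((n : ℝ) + 1) / 2) * (x ^ n * Real.cos (2 * x)) + x ^ (n + 1) * Real.sin (2 * x)) x := by
    intro x _
    have h1 : HasDerivAt (fun τ : ℝ => τ ^ (n + 1)) (((n + 1 : ℕ) : ℝ) * x ^ n) x := by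
      have := hasDerivAt_pow (n + 1) x
      rwa [Nat.add_sub_cancel] at this
    have h2 : HasDerivAt (fun τ : ℝ => Real.cos (2 * τ)) (-Real.sin (2 * x) * (2 * 1)) x :=
      ((hasDerivAt_id x).const_mul 2).cos
    have h3 := ((h1.mul h2).div_const 2).neg
    refine h3.congr_deriv ?_
    push_cast
    ring
  have h1 := integral_eq_sub_of_hasDerivAt hd (ii (by fun_prop))
  rw [integral_add (ii (by fun_prop)) (ii (by fun_prop)), intervalIntegral.integral_const_mul] at h1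
  have h2 : Real.cos (2 * Real.pi) = 1 := Real.cos_two_pi
  rw [h2] at h1
  unfold C D
  simp only [mul_one, mul_zero, Real.cos_zero, ne_eq, Nat.succ_ne_zero, not_false_eq_true,
    zero_pow, zero_div, neg_zero, sub_zero] at h1
  linarith

theorem C_zero : C 0 = 0 := by
  unfold C
  have hd : ∀ x ∈ uIcc (0 : ℝ) Real.pi, HasDerivAt
      (fun τ : ℝ => Real.sin (2 * τ) / 2) (x ^ 0 * Real.cos (2 * x)) x := by
    intro x _
    have h2 : HasDerivAt (fun τ : ℝ => Real.sin (2 * τ)) (Real.cos (2 * x) * (2 * 1)) x :=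
      ((hasDerivAt_id x).const_mul 2).sin
    refine (h2.div_const 2).congr_deriv ?_
    ring
  rw [integral_eq_sub_of_hasDerivAt hd (ii (by fun_prop))]
  simp [Real.sin_two_pi]

theorem C_rec (n : ℕ) : C (n + 2) = ((n : ℝ) + 2) / 4 * Real.pi ^ (n + 1) -
    ((n : ℝ) + 2) * ((n : ℝ) + 1) / 4 * C n := by
  rw [C_succ (n + 1), D_succ n]
  push_cast
  ring

/-- the moments of `gg` -/
noncomputable def I (n : ℕ) : ℝ := ∫ τ in (0:ℝ)..Real.pi, gg τ * τ ^ n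

theorem I_eq (n : ℕ) : I n = Real.pi ^ (n + 1) * (1 / (2 * ((n : ℝ) + 1)) + 1 / 4) -
    ((n : ℝ) + 3) / 4 * C n := by
  have e : ∀ τ : ℝ, gg τ * τ ^ n = 1 / 2 * τ ^ n - 1 / 2 * (τ ^ n * Real.cos (2 * τ)) -
      1 / 2 * (τ ^ (n + 1) * Real.sin (2 * τ)) := by
    intro τ
    unfold gg
    rw [Real.cos_two_mul, Real.sin_two_mul, pow_succ]
    have := Real.sin_sq_add_cos_sq τ
    linear_combination τ ^ n * this
  unfold I
  simp only [e]
  rw [integral_sub (ii (by fun_prop)) (ii (by fun_prop)), integral_sub (ii (by fun_prop))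
    (ii (by fun_prop)), intervalIntegral.integral_const_mul, intervalIntegral.integral_const_mul, intervalIntegral.integral_const_mul, integral_pow]
  have h1 := D_succ n
  unfold D at h1
  rw [h1]
  unfold C
  have h2 : ((n : ℝ) + 1) ≠ 0 := by positivity
  simp only [ne_eq, Nat.succ_ne_zero, not_false_eq_true, zero_pow, sub_zero]
  field_simp
  ring

/-! ### Numerical bounds for the powers of `π` -/

theorem plo : (3.14159265358 : ℝ) ≤ Real.pi := by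
  have := Real.pi_gt_d20
  norm_num at this ⊢
  linarith

theorem phi : Real.pi ≤ (3.14159265359 : ℝ) := by
  have := Real.pi_lt_d20
  norm_num at this ⊢
  linarith

theorem pl1 : (3.141592653 : ℝ) ≤ Real.pi ^ 1 := by
  have h := pow_le_pow_left₀ (by norm_num) plo 1
  refine le_trans ?_ h
  norm_num

theorem pu1 : Real.pi ^ 1 ≤ (3.141592654 : ℝ) := by
  have h := pow_le_pow_left₀ Real.pi_pos.le phi 1
  refine le_trans h ?_
  norm_num

theorem pl3 : (31.006276680 : ℝ) ≤ Real.pi ^ 3 := by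
  have h := pow_le_pow_left₀ (by norm_num) plo 3
  refine le_trans ?_ h
  norm_num

theorem pu3 : Real.pi ^ 3 ≤ (31.006276681 : ℝ) := by
  have h := pow_le_pow_left₀ Real.pi_pos.le phi 3
  refine le_trans h ?_
  norm_num

theorem pl5 : (306.019684780 : ℝ) ≤ Real.pi ^ 5 := by
  have h := pow_le_pow_left₀ (by norm_num) plo 5
  refine le_trans ?_ h
  norm_num

theorem pu5 : Real.pi ^ 5 ≤ (306.019684786 : ℝ) := by
  have h := pow_le_pow_left₀ Real.pi_pos.le phi 5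
  refine le_trans h ?_
  norm_num

theorem pl7 : (3020.293227710 : ℝ) ≤ Real.pi ^ 7 := by
  have h := pow_le_pow_left₀ (by norm_num) plo 7
  refine le_trans ?_ h
  norm_num

theorem pu7 : Real.pi ^ 7 ≤ (3020.293227779 : ℝ) := by
  have h := pow_le_pow_left₀ Real.pi_pos.le phi 7
  refine le_trans h ?_
  norm_num

theorem pl9 : (29809.099332609 : ℝ) ≤ Real.pi ^ 9 := by
  have h := pow_le_pow_left₀ (by norm_num) plo 9
  refine le_trans ?_ h
  norm_num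

theorem pu9 : Real.pi ^ 9 ≤ (29809.099333464 : ℝ) := by
  have h := pow_le_pow_left₀ Real.pi_pos.le phi 9
  refine le_trans h ?_
  norm_num

theorem pl11 : (294204.017963 : ℝ) ≤ Real.pi ^ 11 := by
  have h := pow_le_pow_left₀ (by norm_num) plo 11
  refine le_trans ?_ h
  norm_num

theorem pu11 : Real.pi ^ 11 ≤ (294204.017975 : ℝ) := by
  have h := pow_le_pow_left₀ Real.pi_pos.le phi 11
  refine le_trans h ?_
  norm_num

theorem pl13 : (2903677.270495 : ℝ) ≤ Real.pi ^ 13 := by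
  have h := pow_le_pow_left₀ (by norm_num) plo 13
  refine le_trans ?_ h
  norm_num

theorem pu13 : Real.pi ^ 13 ≤ (2903677.270616 : ℝ) := by
  have h := pow_le_pow_left₀ Real.pi_pos.le phi 13
  refine le_trans h ?_
  norm_num

theorem pl15 : (28658145.968047 : ℝ) ≤ Real.pi ^ 15 := by
  have h := pow_le_pow_left₀ (by norm_num) plo 15
  refine le_trans ?_ h
  norm_num

theorem pu15 : Real.pi ^ 15 ≤ (28658145.969417 : ℝ) := by
  have h := pow_le_pow_left₀ Real.pi_pos.le phi 15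
  refine le_trans h ?_
  norm_num

theorem pl17 : (282844563.571544 : ℝ) ≤ Real.pi ^ 17 := by
  have h := pow_le_pow_left₀ (by norm_num) plo 17
  refine le_trans ?_ h
  norm_num

theorem pu17 : Real.pi ^ 17 ≤ (282844563.586850 : ℝ) := by
  have h := pow_le_pow_left₀ Real.pi_pos.le phi 17
  refine le_trans h ?_
  norm_num

theorem pl19 : (2791563949.432505 : ℝ) ≤ Real.pi ^ 19 := by
  have h := pow_le_pow_left₀ (by norm_num) plo 19
  refine le_trans ?_ h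
  norm_num

theorem pu19 : Real.pi ^ 19 ≤ (2791563949.601337 : ℝ) := by
  have h := pow_le_pow_left₀ Real.pi_pos.le phi 19
  refine le_trans h ?_
  norm_num

/-! ### The moments -/

theorem C_2 : C 2 = (1 / 2 : ℝ) * Real.pi ^ 1 := by
  have h := C_rec 0
  rw [C_zero] at h
  norm_num at h
  rw [h]
  ring

theorem C_4 : C 4 = (-3 / 2 : ℝ) * Real.pi ^ 1 + (1 : ℝ) * Real.pi ^ 3 := by
  have h := C_rec 2
  rw [C_2] at h
  norm_num at h
  rw [h]
  ring

theorem C_6 : C 6 = (45 / 4 : ℝ) * Real.pi ^ 1 + (-15 / 2 : ℝ) * Real.pi ^ 3 + (3 / 2 : ℝ) * Real.pi ^ 5 := by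
  have h := C_rec 4
  rw [C_4] at h
  norm_num at h
  rw [h]
  ring

theorem C_8 : C 8 = (-315 / 2 : ℝ) * Real.pi ^ 1 + (105 : ℝ) * Real.pi ^ 3 + (-21 : ℝ) * Real.pi ^ 5 + (2 : ℝ) * Real.pi ^ 7 := by
  have h := C_rec 6
  rw [C_6] at h
  norm_num at h
  rw [h]
  ring

theorem C_10 : C 10 = (14175 / 4 : ℝ) * Real.pi ^ 1 + (-4725 / 2 : ℝ) * Real.pi ^ 3 + (945 / 2 : ℝ) * Real.pi ^ 5 + (-45 : ℝ) * Real.pi ^ 7 + (5 / 2 : ℝ) * Real.pi ^ 9 := by
  have h := C_rec 8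
  rw [C_8] at h
  norm_num at h
  rw [h]
  ring

theorem C_12 : C 12 = (-467775 / 4 : ℝ) * Real.pi ^ 1 + (155925 / 2 : ℝ) * Real.pi ^ 3 + (-31185 / 2 : ℝ) * Real.pi ^ 5 + (1485 : ℝ) * Real.pi ^ 7 + (-165 / 2 : ℝ) * Real.pi ^ 9 + (3 : ℝ) * Real.pi ^ 11 := by
  have h := C_rec 10
  rw [C_10] at h
  norm_num at h
  rw [h]
  ring

theorem C_14 : C 14 = (42567525 / 8 : ℝ) * Real.pi ^ 1 + (-14189175 / 4 : ℝ) * Real.pi ^ 3 + (2837835 / 4 : ℝ) * Real.pi ^ 5 + (-135135 / 2 : ℝ) * Real.pi ^ 7 + (15015 / 4 : ℝ) * Real.pi ^ 9 + (-273 / 2 : ℝ) * Real.pi ^ 11 + (7 / 2 : ℝ) * Real.pi ^ 13 := by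
  have h := C_rec 12
  rw [C_12] at h
  norm_num at h
  rw [h]
  ring

theorem C_16 : C 16 = (-638512875 / 2 : ℝ) * Real.pi ^ 1 + (212837625 : ℝ) * Real.pi ^ 3 + (-42567525 : ℝ) * Real.pi ^ 5 + (4054050 : ℝ) * Real.pi ^ 7 + (-225225 : ℝ) * Real.pi ^ 9 + (8190 : ℝ) * Real.pi ^ 11 + (-210 : ℝ) * Real.pi ^ 13 + (4 : ℝ) * Real.pi ^ 15 := by
  have h := C_rec 14
  rw [C_14] at h
  norm_num at h
  rw [h]
  ring

theorem C_18 : C 18 = (97692469875 / 4 : ℝ) * Real.pi ^ 1 + (-32564156625 / 2 : ℝ) * Real.pi ^ 3 + (6512831325 / 2 : ℝ) * Real.pi ^ 5 + (-310134825 : ℝ) * Real.pi ^ 7 + (34459425 / 2 : ℝ) * Real.pi ^ 9 + (-626535 : ℝ) * Real.pi ^ 11 + (16065 : ℝ) * Real.pi ^ 13 + (-306 : ℝ) * Real.pi ^ 15 + (9 / 2 : ℝ) * Real.pi ^ 17 := by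
  have h := C_rec 16
  rw [C_16] at h
  norm_num at h
  rw [h]
  ring

theorem I_0 : I 0 = (3 / 4 : ℝ) * Real.pi ^ 1 := by
  rw [I_eq, C_zero]
  norm_num
  ring

theorem I_2 : I 2 = (-5 / 8 : ℝ) * Real.pi ^ 1 + (5 / 12 : ℝ) * Real.pi ^ 3 := by
  rw [I_eq, C_2]
  norm_num
  ring

theorem I_4 : I 4 = (21 / 8 : ℝ) * Real.pi ^ 1 + (-7 / 4 : ℝ) * Real.pi ^ 3 + (7 / 20 : ℝ) * Real.pi ^ 5 := by
  rw [I_eq, C_4]
  norm_num
  ring

theorem I_6 : I 6 = (-405 / 16 : ℝ) * Real.pi ^ 1 + (135 / 8 : ℝ) * Real.pi ^ 3 + (-27 / 8 : ℝ) * Real.pi ^ 5 + (9 / 28 : ℝ) * Real.pi ^ 7 := by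
  rw [I_eq, C_6]
  norm_num
  ring

theorem I_8 : I 8 = (3465 / 8 : ℝ) * Real.pi ^ 1 + (-1155 / 4 : ℝ) * Real.pi ^ 3 + (231 / 4 : ℝ) * Real.pi ^ 5 + (-11 / 2 : ℝ) * Real.pi ^ 7 + (11 / 36 : ℝ) * Real.pi ^ 9 := by
  rw [I_eq, C_8]
  norm_num
  ring

theorem I_10 : I 10 = (-184275 / 16 : ℝ) * Real.pi ^ 1 + (61425 / 8 : ℝ) * Real.pi ^ 3 + (-12285 / 8 : ℝ) * Real.pi ^ 5 + (585 / 4 : ℝ) * Real.pi ^ 7 + (-65 / 8 : ℝ) * Real.pi ^ 9 + (13 / 44 : ℝ) * Real.pi ^ 11 := by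
  rw [I_eq, C_10]
  norm_num
  ring

theorem I_12 : I 12 = (7016625 / 16 : ℝ) * Real.pi ^ 1 + (-2338875 / 8 : ℝ) * Real.pi ^ 3 + (467775 / 8 : ℝ) * Real.pi ^ 5 + (-22275 / 4 : ℝ) * Real.pi ^ 7 + (2475 / 8 : ℝ) * Real.pi ^ 9 + (-45 / 4 : ℝ) * Real.pi ^ 11 + (15 / 52 : ℝ) * Real.pi ^ 13 := by
  rw [I_eq, C_12]
  norm_num
  ring

theorem I_14 : I 14 = (-723647925 / 32 : ℝ) * Real.pi ^ 1 + (241215975 / 16 : ℝ) * Real.pi ^ 3 + (-48243195 / 16 : ℝ) * Real.pi ^ 5 + (2297295 / 8 : ℝ) * Real.pi ^ 7 + (-255255 / 16 : ℝ) * Real.pi ^ 9 + (4641 / 8 : ℝ) * Real.pi ^ 11 + (-119 / 8 : ℝ) * Real.pi ^ 13 + (17 / 60 : ℝ) * Real.pi ^ 15 := by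
  rw [I_eq, C_14]
  norm_num
  ring

theorem I_16 : I 16 = (12131744625 / 8 : ℝ) * Real.pi ^ 1 + (-4043914875 / 4 : ℝ) * Real.pi ^ 3 + (808782975 / 4 : ℝ) * Real.pi ^ 5 + (-38513475 / 2 : ℝ) * Real.pi ^ 7 + (4279275 / 4 : ℝ) * Real.pi ^ 9 + (-77805 / 2 : ℝ) * Real.pi ^ 11 + (1995 / 2 : ℝ) * Real.pi ^ 13 + (-19 : ℝ) * Real.pi ^ 15 + (19 / 68 : ℝ) * Real.pi ^ 17 := by
  rw [I_eq, C_16]
  norm_num
  ring

theorem I_18 : I 18 = (-2051541867375 / 16 : ℝ) * Real.pi ^ 1 + (683847289125 / 8 : ℝ) * Real.pi ^ 3 + (-136769457825 / 8 : ℝ) * Real.pi ^ 5 + (6512831325 / 4 : ℝ) * Real.pi ^ 7 + (-723647925 / 8 : ℝ) * Real.pi ^ 9 + (13157235 / 4 : ℝ) * Real.pi ^ 11 + (-337365 / 4 : ℝ) * Real.pi ^ 13 + (3213 / 2 : ℝ) * Real.pi ^ 15 + (-189 / 8 : ℝ) * Real.pi ^ 17 + (21 / 76 : ℝ) * Real.pi ^ 19 := by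
  rw [I_eq, C_18]
  norm_num
  ring

/-- The sums. -/
noncomputable def S (j n : ℕ) : ℝ :=
  ∑ i ∈ Finset.range n, ((-(16 / 100 : ℝ)) ^ i / (i.factorial : ℝ)) * I (2 * j + 2 * i)

theorem S_eq (j n : ℕ) :
    ∫ τ in (0:ℝ)..Real.pi, gg τ * τ ^ (2 * j) * T n (0.16 * τ ^ 2) = S j n := by
  have e : ∀ τ : ℝ, gg τ * τ ^ (2 * j) * T n (0.16 * τ ^ 2) =
      ∑ i ∈ Finset.range n, ((-(16 / 100 : ℝ)) ^ i / (i.factorial : ℝ)) *
        (gg τ * τ ^ (2 * j + 2 * i)) := by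
    intro τ
    unfold T
    rw [Finset.mul_sum]
    refine Finset.sum_congr rfl fun i _ => ?_
    have e1 : (-(0.16 * τ ^ 2)) ^ i = (-(16 / 100 : ℝ)) ^ i * τ ^ (2 * i) := by
      rw [pow_mul, ← mul_pow]
      congr 1
      norm_num
    rw [e1, pow_add]
    ring
  simp only [e]
  rw [intervalIntegral.integral_finsetSum]
  · unfold S
    refine Finset.sum_congr rfl fun i _ => ?_
    rw [intervalIntegral.integral_const_mul]
    rfl
  · intro i _
    have := gg_cont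
    exact ii (by fun_prop)

theorem T_cont (n : ℕ) : Continuous (T n) := by
  unfold T
  fun_prop

theorem low (j n : ℕ) (hn : Even n) :
    S j n ≤ ∫ τ in (0:ℝ)..Real.pi, gg τ * τ ^ (2 * j) * Real.exp (-(0.16 * τ ^ 2)) := by
  rw [← S_eq]
  have h1 := gg_cont
  have h2 := T_cont n
  refine intervalIntegral.integral_mono_on Real.pi_pos.le (ii (by fun_prop)) (ii (by fun_prop)) ?_
  intro τ hτ
  have h3 := alt n (0.16 * τ ^ 2) (by positivity)
  rw [hn.neg_one_pow, one_mul] at h3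
  have h4 : 0 ≤ gg τ * τ ^ (2 * j) := mul_nonneg (gg_nonneg hτ.1 hτ.2) (pow_nonneg hτ.1 _)
  exact mul_le_mul_of_nonneg_left (by linarith) h4

theorem upp (j n : ℕ) (hn : Odd n) :
    (∫ τ in (0:ℝ)..Real.pi, gg τ * τ ^ (2 * j) * Real.exp (-(0.16 * τ ^ 2))) ≤ S j n := by
  rw [← S_eq]
  have h1 := gg_cont
  have h2 := T_cont n
  refine intervalIntegral.integral_mono_on Real.pi_pos.le (ii (by fun_prop)) (ii (by fun_prop)) ?_
  intro τ hτ
  have h3 := alt n (0.16 * τ ^ 2) (by positivity)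
  rw [hn.neg_one_pow] at h3
  have h4 : 0 ≤ gg τ * τ ^ (2 * j) := mul_nonneg (gg_nonneg hτ.1 hτ.2) (pow_nonneg hτ.1 _)
  exact mul_le_mul_of_nonneg_left (by linarith) h4

theorem S_0_6 : S 0 6 = (7209149 / 7812500 : ℝ) * Real.pi ^ 1 + (-674887 / 5859375 : ℝ) * Real.pi ^ 3 + (94754 / 9765625 : ℝ) * Real.pi ^ 5 + (-102008 / 205078125 : ℝ) * Real.pi ^ 7 + (4072 / 263671875 : ℝ) * Real.pi ^ 9 + (-416 / 1611328125 : ℝ) * Real.pi ^ 11 := by
  unfold S
  simp only [Finset.sum_range_succ, Finset.sum_range_zero, Nat.factorial, Nat.reduceMul, Nat.reduceAdd, mul_zero, add_zero, zero_add]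
  rw [I_0, I_2, I_4, I_6, I_8, I_10]
  push_cast
  ring

theorem S_1_8 : S 1 8 = (-7220718221 / 1953125000 : ℝ) * Real.pi ^ 1 + (7220718221 / 2929687500 : ℝ) * Real.pi ^ 3 + (-500001258 / 1220703125 : ℝ) * Real.pi ^ 5 + (863283766 / 25634765625 : ℝ) * Real.pi ^ 7 + (-54129644 / 32958984375 : ℝ) * Real.pi ^ 9 + (3500344 / 67138671875 : ℝ) * Real.pi ^ 11 + (-806912 / 714111328125 : ℝ) * Real.pi ^ 13 + (96448 / 5767822265625 : ℝ) * Real.pi ^ 15 + (-4864 / 32684326171875 : ℝ) * Real.pi ^ 17 := by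
  unfold S
  simp only [Finset.sum_range_succ, Finset.sum_range_zero, Nat.factorial, Nat.reduceMul, Nat.reduceAdd, mul_zero, add_zero, zero_add]
  rw [I_2, I_4, I_6, I_8, I_10, I_12, I_14, I_16]
  push_cast
  ring

theorem S_1_7 : S 1 7 = (-1128641257 / 390625000 : ℝ) * Real.pi ^ 1 + (1128641257 / 585937500 : ℝ) * Real.pi ^ 3 + (-73708386 / 244140625 : ℝ) * Real.pi ^ 5 + (120073022 / 5126953125 : ℝ) * Real.pi ^ 7 + (-7069948 / 6591796875 : ℝ) * Real.pi ^ 9 + (421848 / 13427734375 : ℝ) * Real.pi ^ 11 + (-85504 / 142822265625 : ℝ) * Real.pi ^ 13 + (1088 / 164794921875 : ℝ) * Real.pi ^ 15 := by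
  unfold S
  simp only [Finset.sum_range_succ, Finset.sum_range_zero, Nat.factorial, Nat.reduceMul, Nat.reduceAdd, mul_zero, add_zero, zero_add]
  rw [I_2, I_4, I_6, I_8, I_10, I_12, I_14]
  push_cast
  ring

theorem S_2_8 : S 2 8 = (303603723111 / 1953125000 : ℝ) * Real.pi ^ 1 + (-101201241037 / 976562500 : ℝ) * Real.pi ^ 3 + (101201241037 / 4882812500 : ℝ) * Real.pi ^ 5 + (-16582042777 / 8544921875 : ℝ) * Real.pi ^ 7 + (1153042118 / 10986328125 : ℝ) * Real.pi ^ 9 + (-740048912 / 201416015625 : ℝ) * Real.pi ^ 11 + (7064888 / 79345703125 : ℝ) * Real.pi ^ 13 + (-141536 / 91552734375 : ℝ) * Real.pi ^ 15 + (89152 / 4669189453125 : ℝ) * Real.pi ^ 17 + (-256 / 1739501953125 : ℝ) * Real.pi ^ 19 := by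
  unfold S
  simp only [Finset.sum_range_succ, Finset.sum_range_zero, Nat.factorial, Nat.reduceMul, Nat.reduceAdd, mul_zero, add_zero, zero_add]
  rw [I_4, I_6, I_8, I_10, I_12, I_14, I_16, I_18]
  push_cast
  ring

theorem S_2_7 : S 2 7 = (6808837503 / 78125000 : ℝ) * Real.pi ^ 1 + (-2269612501 / 39062500 : ℝ) * Real.pi ^ 3 + (2269612501 / 195312500 : ℝ) * Real.pi ^ 5 + (-366875521 / 341796875 : ℝ) * Real.pi ^ 7 + (24949814 / 439453125 : ℝ) * Real.pi ^ 9 + (-15487376 / 8056640625 : ℝ) * Real.pi ^ 11 + (140024 / 3173828125 : ℝ) * Real.pi ^ 13 + (-2528 / 3662109375 : ℝ) * Real.pi ^ 15 + (1216 / 186767578125 : ℝ) * Real.pi ^ 17 := by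
  unfold S
  simp only [Finset.sum_range_succ, Finset.sum_range_zero, Nat.factorial, Nat.reduceMul, Nat.reduceAdd, mul_zero, add_zero, zero_add]
  rw [I_4, I_6, I_8, I_10, I_12, I_14, I_16]
  push_cast
  ring

theorem S_3_7 : S 3 7 = (-854969659101 / 156250000 : ℝ) * Real.pi ^ 1 + (284989886367 / 78125000 : ℝ) * Real.pi ^ 3 + (-284989886367 / 390625000 : ℝ) * Real.pi ^ 5 + (94996628789 / 1367187500 : ℝ) * Real.pi ^ 7 + (-1688520994 / 439453125 : ℝ) * Real.pi ^ 9 + (370452582 / 2685546875 : ℝ) * Real.pi ^ 11 + (-32754212 / 9521484375 : ℝ) * Real.pi ^ 13 + (678664 / 10986328125 : ℝ) * Real.pi ^ 15 + (-49472 / 62255859375 : ℝ) * Real.pi ^ 17 + (448 / 69580078125 : ℝ) * Real.pi ^ 19 := by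
  unfold S
  simp only [Finset.sum_range_succ, Finset.sum_range_zero, Nat.factorial, Nat.reduceMul, Nat.reduceAdd, mul_zero, add_zero, zero_add]
  rw [I_6, I_8, I_10, I_12, I_14, I_16, I_18]
  push_cast
  ring

theorem b1 : (1.178 : ℝ) ≤ S 0 6 := by
  rw [S_0_6]
  linarith [pl1, pu3, pl5, pu7, pl9, pu11]

theorem b2 : (4.70 : ℝ) ≤ S 1 8 := by
  rw [S_1_8]
  linarith [pu1, pl3, pu5, pl7, pu9, pl11, pu13, pl15, pu17]

theorem b3 : S 1 7 ≤ (4.72 : ℝ) := by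
  rw [S_1_7]
  linarith [pl1, pu3, pl5, pu7, pl9, pu11, pl13, pu15]

theorem b4 : (23.3 : ℝ) ≤ S 2 8 := by
  rw [S_2_8]
  linarith [pl1, pu3, pl5, pu7, pl9, pu11, pl13, pu15, pl17, pu19]

theorem b5 : S 2 7 ≤ (23.5 : ℝ) := by
  rw [S_2_7]
  linarith [pu1, pl3, pu5, pl7, pu9, pl11, pu13, pl15, pu17]

theorem b6 : S 3 7 ≤ (135 : ℝ) := by
  rw [S_3_7]
  linarith [pl1, pu3, pl5, pu7, pl9, pu11, pl13, pu15, pl17, pu19]

theorem main : Pool.Agent.H770.GS.S_TF16 := by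
  have hg : Pool.Agent.H770.GS.gg = gg := rfl
  unfold Pool.Agent.H770.GS.S_TF16
  rw [hg]
  have e0 := low 0 6 (by decide)
  have e1 := low 1 8 (by decide)
  have e2 := upp 1 7 (by decide)
  have e3 := low 2 8 (by decide)
  have e4 := upp 2 7 (by decide)
  have e5 := upp 3 7 (by decide)
  simp only [mul_zero, pow_zero, mul_one] at e0
  exact ⟨b1.trans e0, b2.trans e1, e2.trans b3, b4.trans e3, e4.trans b5, e5.trans b6⟩

end Pool.Agent.H703.TF16
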