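import Pool.Agent.H979.FC.Stm

/-! Void probabilities (parts VOID and PFV of project FC). -/

set_option autoImplicit false

open MeasureTheory ProbabilityTheory Finset
open scoped ENNReal NNReal

namespace Pool.Agent.H703

open Pool.Agent.H979.FR Pool.Agent.H979.FC

namespace FCVOIDaux

/-- The void events. -/
def CC (I : Type) : Set (Set (I → Bool)) :=
  {S | ∃ F : Finset I, S = {A | ∀ i ∈ F, A i = false}}

theorem meas {I : Type} (F : Finset I) :
    MeasurableSet {A : I → Bool | ∀ i ∈ F, A i = false} := by
  have h : {A : I → Bool | ∀ i ∈ F, A i = false} =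
      ⋂ i ∈ F, (fun A : I → Bool => A i) ⁻¹' {false} := by
    ext A
    simp
  rw [h]
  exact Finset.measurableSet_biInter F fun i _ => measurable_pi_apply i (measurableSet_singleton _)

theorem piSys (I : Type) : IsPiSystem (CC I) := by
  classical
  rintro _ ⟨F, rfl⟩ _ ⟨G, rfl⟩ _
  refine ⟨F ∪ G, ?_⟩
  ext A
  constructor
  · rintro ⟨h1, h2⟩ i hi
    rcases Finset.mem_union.1 hi with h | h
    · exact h1 i h
    · exact h2 i h
  · intro h
    exact ⟨fun i hi => h i (Finset.mem_union_left _ hi),
      fun i hi => h i (Finset.mem_union_right _ hi)⟩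

theorem gen (I : Type) :
    (MeasurableSpace.pi : MeasurableSpace (I → Bool)) = MeasurableSpace.generateFrom (CC I) := by
  apply le_antisymm
  · refine iSup_le fun i => ?_
    rw [← measurable_iff_comap_le]
    refine @measurable_to_bool _ (MeasurableSpace.generateFrom (CC I)) _ ?_
    have h : (fun A : I → Bool => A i) ⁻¹' {true} =
        {A : I → Bool | ∀ j ∈ ({i} : Finset I), A j = false}ᶜ := by
      ext A
      simp
    rw [h]
    have hm : {A : I → Bool | ∀ j ∈ ({i} : Finset I), A j = false} ∈ CC I := ⟨{i}, rfl⟩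
    exact @MeasurableSet.compl _ _ (MeasurableSpace.generateFrom (CC I))
      (MeasurableSpace.measurableSet_generateFrom hm)
  · apply MeasurableSpace.generateFrom_le
    rintro _ ⟨F, rfl⟩
    exact meas F

theorem pl_false (a : ℝ≥0) : pl a {false} = ENNReal.ofReal (Real.exp (-(a : ℝ))) := by
  unfold pl
  rw [Measure.map_apply (measurable_of_countable _) (measurableSet_singleton _)]
  have h : (fun n : ℕ => decide (0 < n)) ⁻¹' {false} = {0} := by
    ext n
    simp
  rw [h, poissonMeasure_singleton]
  simp

end FCVOIDaux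

open FCVOIDaux

theorem fc_void : S_VOID := by
  intro I _ P Q _ _ h
  refine ext_of_generate_finite (CC I) (gen I) (piSys I) ?_ ?_
  · rintro _ ⟨F, rfl⟩
    exact h F
  · rw [measure_univ, measure_univ]

theorem fc_pfv : S_PFV := by
  intro I μ F
  have h : {A : I → Bool | ∀ i ∈ F, A i = false} =
      Set.pi (F : Set I) (fun _ => ({false} : Set Bool)) := by
    ext A
    simp [Set.mem_pi]
  unfold PF
  rw [h, Measure.infinitePi_pi _ (fun _ _ => measurableSet_singleton _)]
  rw [Finset.prod_congr rfl fun i _ => pl_false (μ i),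
    ← ENNReal.ofReal_prod_of_nonneg fun i _ => Real.exp_nonneg _, ← Real.exp_sum,
    Finset.sum_neg_distrib]

end Pool.Agent.H703
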